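import Pool.Agent.Lib.MP_ac28de_co.Count

namespace Pool.Agent.Lib.MP_ac28de_co

open Letter

/-- `sw b` is `swap` if `b` is true and the identity otherwise. -/
def sw (b : Bool) (y : Word) : Word := if b then swap y else y

lemma sw_sw (a b : Bool) (y : Word) : sw a (sw b y) = sw (xor b a) y := by
  cases a <;> cases b <;> simp [sw, swap_swap]

lemma sw_self (b : Bool) (y : Word) : sw b (sw b y) = y := by
  rw [sw_sw]; simp [sw]

lemma sw_injective (b : Bool) : Function.Injective (sw b) :=
  Function.LeftInverse.injective (sw_self b)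

lemma covers_sw (b : Bool) {y x : Word} (h : Covers y x) : Covers (sw b y) (sw b x) := by
  cases b
  · simpa [sw] using h
  · simpa [sw] using covers_swap h

lemma nu_sw (b : Bool) (x : Word) : nu (sw b x) = nu x := by
  cases b <;> simp [sw, nu_swap]

lemma sw_switchWord (b : Bool) (k : ℕ) :
    sw b (List.replicate k two ++ [one]) = List.replicate k two ++ [one] := by
  cases b <;> simp [sw, swap_switchWord]

lemma IsPath.ne_nil {c : List Word} (h : IsPath c) : c ≠ [] := by
  cases h <;> simp

lemma IsPath.tail {y x : Word} {l : List Word} (h : IsPath (y :: x :: l)) : IsPath (x :: l) := by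
  cases h with
  | up h1 _ => exact h1

lemma IsPath.covers {y x : Word} {l : List Word} (h : IsPath (y :: x :: l)) : Covers y x := by
  cases h with
  | up _ h2 => exact h2

lemma IsPath.single {x : Word} (h : IsPath [x]) : x = [] := by
  cases h; rfl

/-- The property of a list of being a switch. -/
def IsSw (c : List Word) : Prop := ∃ (k : ℕ) (l : List Word), c = (List.replicate k two ++ [one]) :: l

variable (ε δ : Switch → Bool)

open Classical in
lemma bit_cons (y : Word) (c : List Word) : bit ε (y :: c) =
    if h : IsPath c ∧ ∃ (k : ℕ) (l : List Word), c = (List.replicate k two ++ [one]) :: l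
      then ε ⟨⟨c, h.1⟩, h.2⟩ else bit ε c := by
  rw [bit]

lemma bit_cons_switch {y : Word} {c : List Word} (h1 : IsPath c) (h2 : IsSw c) :
    bit ε (y :: c) = ε ⟨⟨c, h1⟩, h2⟩ := by
  rw [bit_cons, dif_pos ⟨h1, h2⟩]

lemma bit_cons_not_switch {y : Word} {c : List Word} (h2 : ¬ IsSw c) :
    bit ε (y :: c) = bit ε c := by
  rw [bit_cons, dif_neg (fun h => h2 h.2)]

lemma act_nil : act ε [] = [] := by rw [act]

lemma act_cons (y : Word) (c : List Word) : act ε (y :: c) = sw (bit ε (y :: c)) y :: act ε c := by
  rw [act]; rfl

lemma isSw_cons_iff {x : Word} {l : List Word} : IsSw (x :: l) ↔ ∃ k, x = List.replicate k two ++ [one] := by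
  constructor
  · rintro ⟨k, l', h⟩; exact ⟨k, (List.cons.inj h).1⟩
  · rintro ⟨k, h⟩; exact ⟨k, l, by rw [h]⟩

lemma switchWord_sw_iff (b : Bool) (x : Word) :
    (∃ k, sw b x = List.replicate k two ++ [one]) ↔ ∃ k, x = List.replicate k two ++ [one] := by
  constructor
  · rintro ⟨k, h⟩
    refine ⟨k, ?_⟩
    have := congrArg (sw b) h
    rwa [sw_self, sw_switchWord] at this
  · rintro ⟨k, rfl⟩
    exact ⟨k, sw_switchWord b k⟩

lemma isSw_act_iff (c : List Word) : IsSw (act ε c) ↔ IsSw c := by
  cases c with
  | nil => rw [act_nil]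
  | cons x l => rw [act_cons, isSw_cons_iff, isSw_cons_iff, switchWord_sw_iff]

lemma isPath_act {c : List Word} (h : IsPath c) : IsPath (act ε c) := by
  induction h with
  | root =>
    rw [act_cons, act_nil]
    have : sw (bit ε [[]]) [] = [] := by
      cases bit ε [[]] <;> rfl
    rw [this]; exact IsPath.root
  | @up y x l h1 h2 ih =>
    rw [act_cons] at ih
    rw [act_cons, act_cons]
    refine IsPath.up ih ?_
    by_cases hs : IsSw (x :: l)
    · obtain ⟨k, rfl⟩ := isSw_cons_iff.1 hs
      rw [sw_switchWord]
      have := covers_sw (bit ε (y :: (List.replicate k two ++ [one]) :: l)) h2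
      rwa [sw_switchWord] at this
    · rw [bit_cons_not_switch ε hs]
      exact covers_sw _ h2

lemma length_act (c : List Word) : (act ε c).length = c.length := by
  induction c with
  | nil => rw [act_nil]
  | cons y c ih => rw [act_cons, List.length_cons, List.length_cons, ih]

/-- The transformation of the vertices of the tree. -/
noncomputable def actV (v : Vertex) : Vertex := ⟨act ε v.1, isPath_act ε v.2⟩

lemma bit_cons_congr (y z : Word) (c : List Word) : bit ε (y :: c) = bit ε (z :: c) := by
  rw [bit_cons, bit_cons]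

lemma act_injective {c d : List Word} (h : act ε c = act ε d) : c = d := by
  induction c generalizing d with
  | nil =>
    cases d with
    | nil => rfl
    | cons z d => rw [act_nil, act_cons] at h; simp at h
  | cons y c ih =>
    cases d with
    | nil => rw [act_nil, act_cons] at h; simp at h
    | cons z d =>
      rw [act_cons, act_cons] at h
      obtain ⟨h1, h2⟩ := List.cons.inj h
      have h3 := ih h2
      subst h3
      rw [bit_cons_congr ε z y] at h1
      rw [sw_injective _ h1]

lemma act_surjective {d : List Word} (h : IsPath d) : ∃ c, IsPath c ∧ act ε c = d := by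
  induction h with
  | root =>
    refine ⟨[[]], IsPath.root, ?_⟩
    rw [act_cons, act_nil]
    cases bit ε [[]] <;> rfl
  | @up y x l h1 h2 ih =>
    obtain ⟨c, hc, hd⟩ := ih
    cases c with
    | nil => exact absurd rfl hc.ne_nil
    | cons x' l' =>
      rw [act_cons] at hd
      obtain ⟨hx, hl⟩ := List.cons.inj hd
      refine ⟨sw (bit ε (y :: x' :: l')) y :: x' :: l', IsPath.up hc ?_, ?_⟩
      · by_cases hs : IsSw (x' :: l')
        · obtain ⟨k, rfl⟩ := isSw_cons_iff.1 hs
          rw [sw_switchWord] at hx
          subst hx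
          have := covers_sw (bit ε (y :: (List.replicate k two ++ [one]) :: l')) h2
          rwa [sw_switchWord] at this
        · rw [bit_cons_not_switch ε hs]
          subst hx
          have := covers_sw (bit ε (x' :: l')) h2
          rwa [sw_self] at this
      · rw [act_cons, act_cons, bit_cons_congr ε _ y, sw_self, hx, hl]

/-- The automorphism of the tree with switch pattern `ε`. -/
noncomputable def autoOf : pathTree ≃g pathTree where
  toEquiv := Equiv.ofBijective (actV ε) ⟨fun v w h => Subtype.ext (act_injective ε (congrArg Subtype.val h)),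
    fun v => by
      obtain ⟨c, hc, h⟩ := act_surjective ε v.2
      exact ⟨⟨c, hc⟩, Subtype.ext h⟩⟩
  map_rel_iff' := by
    intro v w
    have key : ∀ v w : Vertex, (∃ y, (actV ε v).1 = y :: (actV ε w).1) ↔ ∃ y, v.1 = y :: w.1 := by
      intro v w
      constructor
      · rintro ⟨y, h⟩
        have hv : v.1 ≠ [] := v.2.ne_nil
        obtain ⟨z, c, hz⟩ := List.exists_cons_of_ne_nil hv
        refine ⟨z, ?_⟩
        change act ε v.1 = y :: act ε w.1 at h
        rw [hz, act_cons] at h
        rw [hz, act_injective ε (List.cons.inj h).2]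
      · rintro ⟨y, h⟩
        refine ⟨sw (bit ε (y :: w.1)) y, ?_⟩
        change act ε v.1 = _ :: act ε w.1
        rw [h, act_cons]
    change ((∃ y, (actV ε v).1 = y :: (actV ε w).1) ∨ (∃ y, (actV ε w).1 = y :: (actV ε v).1)) ↔
      ((∃ y, v.1 = y :: w.1) ∨ (∃ y, w.1 = y :: v.1))
    rw [key, key]

lemma autoOf_apply (v : Vertex) : (autoOf ε v).1 = act ε v.1 := rfl

/-! ### Composition -/

/-- The permutation of the switches induced by `act δ`. -/
noncomputable def tau (s : Switch) : Switch := ⟨actV δ s.1, (isSw_act_iff δ s.1.1).2 s.2⟩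

lemma bit_comp {c : List Word} (hc : IsPath c) :
    bit (fun s => xor (δ s) (ε (tau δ s))) c = xor (bit δ c) (bit ε (act δ c)) := by
  induction hc with
  | root => rw [act_cons, act_nil]; simp [bit]
  | @up y x l h1 h2 ih =>
    rw [act_cons δ y (x :: l)]
    by_cases hs : IsSw (x :: l)
    · rw [bit_cons_switch _ h1 hs, bit_cons_switch _ h1 hs,
        bit_cons_switch ε (isPath_act δ h1) ((isSw_act_iff δ _).2 hs)]
      rfl
    · rw [bit_cons_not_switch _ hs, bit_cons_not_switch _ hs,
        bit_cons_not_switch ε (fun h => hs ((isSw_act_iff δ _).1 h)), ih]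

lemma act_comp {c : List Word} (hc : IsPath c) :
    act ε (act δ c) = act (fun s => xor (δ s) (ε (tau δ s))) c := by
  induction hc with
  | root =>
    rw [act_cons δ, act_nil, act_cons ε, act_nil, act_cons, act_nil, sw_sw]
    congr 2
    have := bit_comp ε δ IsPath.root
    rw [act_cons, act_nil] at this
    rw [this]
  | @up y x l h1 h2 ih =>
    rw [act_cons δ, act_cons ε, act_cons _ y, ih, sw_sw]
    congr 2
    have := bit_comp ε δ (IsPath.up h1 h2)
    rw [act_cons δ] at this
    rw [this]

end Pool.Agent.Lib.MP_ac28de_co
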