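import Pool.Agent.Lib.MP_ac28de_co.Main

namespace Pool.Agent.Lib.MP_ac28de_co

open Letter

/-- The list of all upper covers of a word. -/
def ups : Word → List Word
  | [] => [[one]]
  | one :: w => [one :: one :: w, two :: w]
  | two :: w => (one :: two :: w) :: (ups w).map (fun y => two :: y)

/-- The number of upper covers of a word. -/
def nu : Word → ℕ
  | [] => 1
  | one :: _ => 2
  | two :: w => nu w + 1

lemma length_ups (x : Word) : (ups x).length = nu x := by
  induction x with
  | nil => rfl
  | cons a x ih =>
    cases a with
    | one => rfl
    | two => simp [ups, nu, ih]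

lemma mem_ups {y x : Word} : y ∈ ups x ↔ Covers y x := by
  induction x generalizing y with
  | nil =>
    rw [covers_iff]
    simp [ups]
  | cons a x ih =>
    rw [covers_iff]
    cases a with
    | one => simp [ups]
    | two =>
      simp only [ups, List.mem_cons, List.mem_map]
      constructor
      · rintro (h | ⟨y', h1, h2⟩)
        · exact Or.inl h
        · exact Or.inr (Or.inr ⟨y', x, h2.symm, rfl, ih.1 h1⟩)
      · rintro (h | ⟨w, _, h⟩ | ⟨y', x', h1, h2, h3⟩)
        · exact Or.inl h
        · simp at h
        · obtain ⟨-, rfl⟩ := List.cons.inj h2
          exact Or.inr ⟨y', ih.2 h3, h1.symm⟩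

lemma nodup_ups (x : Word) : (ups x).Nodup := by
  induction x with
  | nil => simp [ups]
  | cons a x ih =>
    cases a with
    | one => simp [ups]
    | two =>
      simp only [ups, List.nodup_cons, List.mem_map, not_exists, not_and]
      refine ⟨fun y _ h => by simp at h, ih.map (fun _ _ h => (List.cons.inj h).2)⟩

lemma nu_pos (x : Word) : 1 ≤ nu x := by
  cases x with
  | nil => simp [nu]
  | cons a x => cases a <;> simp [nu]

lemma nu_ge_two {x : Word} (h : x ≠ []) : 2 ≤ nu x := by
  cases x with
  | nil => exact absurd rfl h
  | cons a x =>
    cases a with
    | one => simp [nu]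
    | two => have := nu_pos x; simp [nu]; omega

lemma ncard_covers (x : Word) : {y : Word | Covers y x}.ncard = nu x := by
  classical
  have : {y : Word | Covers y x} = ((ups x).toFinset : Set Word) := by
    ext y; simp [mem_ups]
  rw [this, Set.ncard_coe_finset, List.toFinset_card_of_nodup (nodup_ups x), length_ups]

lemma nu_swap (x : Word) : nu (swap x) = nu x := by
  have e : {y : Word | Covers y (swap x)} = swap '' {y : Word | Covers y x} := by
    ext y
    simp only [Set.mem_ofPred_eq, Set.mem_image]
    constructor
    · intro h
      exact ⟨swap y, by simpa only [swap_swap] using covers_swap h, swap_swap y⟩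
    · rintro ⟨z, hz, rfl⟩
      exact covers_swap hz
  rw [← ncard_covers, e, Set.ncard_image_of_injective _ (Function.LeftInverse.injective swap_swap),
    ncard_covers]

/-- Two covers of `x` with the same number of upper covers are equal, or `x` is a word `2⋯21` and they are
exchanged by `swap`. -/
lemma tie {x y z : Word} (hy : Covers y x) (hz : Covers z x) (h : nu y = nu z) :
    z = y ∨ ((∃ k, x = List.replicate k two ++ [one]) ∧ z = swap y) := by
  induction x generalizing y z with
  | nil =>
    rw [← mem_ups] at hy hz
    simp [ups] at hy hz
    left; rw [hy, hz]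
  | cons a x ih =>
    cases a with
    | one =>
      rw [← mem_ups] at hy hz
      simp only [ups, List.mem_cons, List.not_mem_nil, or_false] at hy hz
      rcases hy with rfl | rfl <;> rcases hz with rfl | rfl
      · left; rfl
      · right
        have hx : x = [] := by
          by_contra hx
          have := nu_ge_two hx
          simp [nu] at h; omega
        subst hx
        exact ⟨⟨0, rfl⟩, rfl⟩
      · right
        have hx : x = [] := by
          by_contra hx
          have := nu_ge_two hx
          simp [nu] at h; omega
        subst hx
        exact ⟨⟨0, rfl⟩, rfl⟩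
      · left; rfl
    | two =>
      rw [← mem_ups] at hy hz
      simp only [ups, List.mem_cons, List.mem_map] at hy hz
      rcases hy with rfl | ⟨y', hy', rfl⟩ <;> rcases hz with rfl | ⟨z', hz', rfl⟩
      · left; rfl
      · exfalso
        have := nu_ge_two (covers_ne_nil (mem_ups.1 hz'))
        simp [nu] at h; omega
      · exfalso
        have := nu_ge_two (covers_ne_nil (mem_ups.1 hy'))
        simp [nu] at h; omega
      · have h' : nu y' = nu z' := by simpa [nu] using h
        rcases ih (mem_ups.1 hy') (mem_ups.1 hz') h' with h1 | ⟨⟨k, h1⟩, h2⟩
        · left; rw [h1]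
        · right
          refine ⟨⟨k + 1, by rw [h1, List.replicate_succ, List.cons_append]⟩, ?_⟩
          rw [swap_two_cons _ (covers_ne_nil (mem_ups.1 hy')), h2]

/-- The covers of `2⋯21` which are moved by `swap`. -/
lemma moved_cover {k : ℕ} {y : Word} (hy : Covers y (List.replicate k two ++ [one])) (h : swap y ≠ y) :
    y = List.replicate (k + 1) two ∨ y = swap (List.replicate (k + 1) two) := by
  induction k generalizing y with
  | zero =>
    rw [← mem_ups] at hy
    simp [ups] at hy
    rcases hy with rfl | rfl
    · right; rfl
    · left; rfl
  | succ k ih =>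
    rw [List.replicate_succ, List.cons_append, ← mem_ups] at hy
    simp only [ups, List.mem_cons, List.mem_map] at hy
    rcases hy with rfl | ⟨y', hy', rfl⟩
    · exfalso
      apply h
      rw [swap_one_cons _ (by simp) (by simp), swap_two_cons _ (by simp), swap_switchWord]
    · have hne := covers_ne_nil (mem_ups.1 hy')
      have h' : swap y' ≠ y' := by
        intro hh; apply h; rw [swap_two_cons _ hne, hh]
      rcases ih (mem_ups.1 hy') h' with h1 | h1
      · left; rw [h1, ← List.replicate_succ]
      · right
        rw [h1, List.replicate_succ (n := k + 1), swap_two_cons _ (by simp)]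

lemma covers_replicate (k : ℕ) : Covers (List.replicate (k + 1) two) (List.replicate k two ++ [one]) :=
  Or.inr ⟨k, [], by rw [List.replicate_succ'], rfl⟩

lemma swap_replicate_succ (k : ℕ) : swap (List.replicate (k + 1) two) = List.replicate k two ++ [one, one] := by
  rw [List.replicate_succ', swap_replicate_append _ _ (by simp)]; rfl

lemma swap_replicate_succ_ne (k : ℕ) : swap (List.replicate (k + 1) two) ≠ List.replicate (k + 1) two := by
  rw [swap_replicate_succ]
  intro h
  have := congrArg List.length h
  simp at this

end Pool.Agent.Lib.MP_ac28de_co
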