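import Mathlib

/-! Definitions for the automorphism group of the tree of upward paths in the Young-Fibonacci lattice. -/

namespace Pool.Agent.Lib.MP_ac28de_co

/-- The two letters `1` and `2`. -/
inductive Letter where
  | one : Letter
  | two : Letter
  deriving DecidableEq

open Letter

/-- Finite words over the alphabet `{1, 2}`; the head of the list is the leftmost letter. -/
abbrev Word := List Letter

/-- `Covers y x`: the word `y` covers the word `x` in the Young-Fibonacci lattice. Either `x` is `y` with its
leftmost letter `1` deleted, or `x` is `y` with one letter `2`, preceded by letters `2` only, replaced by `1`. -/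
def Covers (y x : Word) : Prop :=
  (∃ (a : ℕ) (w : Word), y = List.replicate a two ++ one :: w ∧ x = List.replicate a two ++ w) ∨
  (∃ (a : ℕ) (w : Word), y = List.replicate a two ++ two :: w ∧ x = List.replicate a two ++ one :: w)

/-- A saturated chain `∅ = x₀ ⋖ x₁ ⋖ ⋯ ⋖ xₙ`, stored as the list `[xₙ, …, x₁, x₀]`. -/
inductive IsPath : List Word → Prop
  | root : IsPath [[]]
  | up {y x : Word} {l : List Word} : IsPath (x :: l) → Covers y x → IsPath (y :: x :: l)

/-- The vertices of the tree `T`: saturated chains starting at the empty word. -/
abbrev Vertex := {c : List Word // IsPath c}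

/-- The tree `T`: a chain is adjacent to the chain obtained from it by deleting its last word. -/
def pathTree : SimpleGraph Vertex where
  Adj c d := (∃ y : Word, c.1 = y :: d.1) ∨ (∃ y : Word, d.1 = y :: c.1)
  symm := ⟨fun _ _ h => h.symm⟩
  loopless := ⟨fun c h => by
    rcases h with ⟨y, h⟩ | ⟨y, h⟩ <;> exact absurd (congrArg List.length h) (by simp)⟩

/-- The involution of the set of words exchanging the suffixes `11` and `2`
(and fixing the empty word, the word `1` and all words with suffix `21`). -/
def swap : Word → Word
  | [] => []
  | [one] => [one]
  | [two] => [one, one]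
  | [one, one] => [two]
  | a :: b :: w => a :: swap (b :: w)

/-- The switches: the chains whose last word is of the form `2 ⋯ 2 1` (`k ≥ 0` letters `2`, then one `1`). -/
abbrev Switch := {v : Vertex // ∃ (k : ℕ) (l : List Word), v.1 = (List.replicate k two ++ [one]) :: l}

open Classical in
/-- For a chain `(x₀, …, xᵢ)` (stored as `[xᵢ, …, x₀]`) this is the value of `ε` at the longest proper initial segment
which is a switch (and `false` if there is none). -/
noncomputable def bit (ε : Switch → Bool) : List Word → Bool
  | [] => false
  | _ :: c =>
      if h : IsPath c ∧ ∃ (k : ℕ) (l : List Word), c = (List.replicate k two ++ [one]) :: l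
      then ε ⟨⟨c, h.1⟩, h.2⟩
      else bit ε c

/-- The transformation of chains with switch pattern `ε`: in the chain `(x₀, …, xₙ)` the word `xᵢ` is replaced by
`swap xᵢ` if `ε` is true at the longest switch which is a proper initial segment of `(x₀, …, xᵢ)`. -/
noncomputable def act (ε : Switch → Bool) : List Word → List Word
  | [] => []
  | y :: c => (if bit ε (y :: c) then swap y else y) :: act ε c

end Pool.Agent.Lib.MP_ac28de_co
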