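import Pool.Agent.Lib.MP_ac28de_co.Defs

namespace Pool.Agent.Lib.MP_ac28de_co

open Letter

/-! ### The involution `swap` -/

lemma swap_cons_cons (a b : Letter) (w : Word) (h : (b :: w) ≠ [one] ∨ a = two) :
    swap (a :: b :: w) = a :: swap (b :: w) := by
  cases a <;> cases b <;> cases w <;> simp_all [swap]

lemma swap_one_one : swap [one, one] = [two] := rfl

lemma swap_two_cons (w : Word) (h : w ≠ []) : swap (two :: w) = two :: swap w := by
  cases w with
  | nil => exact absurd rfl h
  | cons b w => exact swap_cons_cons _ _ _ (Or.inr rfl)

lemma swap_one_cons (w : Word) (h : w ≠ []) (h' : w ≠ [one]) : swap (one :: w) = one :: swap w := by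
  cases w with
  | nil => exact absurd rfl h
  | cons b w => exact swap_cons_cons _ _ _ (Or.inl h')

lemma swap_ne_nil (w : Word) (h : w ≠ []) : swap w ≠ [] := by
  cases w with
  | nil => exact absurd rfl h
  | cons a w =>
    cases w with
    | nil => cases a <;> simp [swap]
    | cons b w =>
      by_cases hh : (b :: w) ≠ [one] ∨ a = two
      · rw [swap_cons_cons _ _ _ hh]; simp
      · push Not at hh
        obtain ⟨h1, h2⟩ := hh
        cases a with
        | one => rw [h1]; simp [swap]
        | two => exact absurd rfl h2

lemma swap_eq_one_iff (w : Word) : swap w = [one] ↔ w = [one] := by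
  constructor
  · intro h
    cases w with
    | nil => simp [swap] at h
    | cons a w =>
      cases w with
      | nil => cases a <;> simp [swap] at h ⊢
      | cons b w =>
        by_cases hh : (b :: w) ≠ [one] ∨ a = two
        · rw [swap_cons_cons _ _ _ hh] at h
          have := List.cons.inj h
          exact absurd this.2 (swap_ne_nil _ (by simp))
        · push Not at hh
          obtain ⟨h1, h2⟩ := hh
          cases a with
          | one => rw [h1] at h; simp [swap] at h
          | two => exact absurd rfl h2
  · intro h; rw [h]; rfl

lemma swap_swap (w : Word) : swap (swap w) = w := by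
  induction w with
  | nil => rfl
  | cons a w ih =>
    cases w with
    | nil => cases a <;> rfl
    | cons b w =>
      cases a with
      | two =>
        rw [swap_two_cons _ (by simp), swap_two_cons _ (swap_ne_nil _ (by simp)), ih]
      | one =>
        by_cases h : (b :: w) = [one]
        · rw [h]; rfl
        · rw [swap_one_cons _ (by simp) h, swap_one_cons _ (swap_ne_nil _ (by simp))
            (fun h' => h ((swap_eq_one_iff _).1 h')), ih]

lemma swap_replicate_append (a : ℕ) (w : Word) (h : w ≠ []) :
    swap (List.replicate a two ++ w) = List.replicate a two ++ swap w := by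
  induction a with
  | zero => simp
  | succ a ih =>
    rw [List.replicate_succ, List.cons_append, List.cons_append, swap_two_cons _ (by simp [h]), ih]

lemma swap_switchWord (k : ℕ) : swap (List.replicate k two ++ [one]) = List.replicate k two ++ [one] := by
  rw [swap_replicate_append _ _ (by simp)]; rfl

/-- `swap` exchanges the suffixes `11` and `2`. -/
lemma swap_append (w v : Word) (h : v ≠ []) (h' : v ≠ [one]) : swap (w ++ v) = w ++ swap v := by
  induction w with
  | nil => simp
  | cons a w ih =>
    rw [List.cons_append, List.cons_append]
    have hne : w ++ v ≠ [] := by simp [h]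
    cases a with
    | two => rw [swap_two_cons _ hne, ih]
    | one =>
      have hne' : w ++ v ≠ [one] := by
        intro hh
        cases w with
        | nil => exact h' hh
        | cons b w =>
          have := (List.cons.inj hh).2
          exact h (List.append_eq_nil_iff.1 this).2
      rw [swap_one_cons _ hne hne', ih]

lemma swap_suffix_one_one (w : Word) : swap (w ++ [one, one]) = w ++ [two] :=
  swap_append _ _ (by simp) (by simp)

lemma swap_suffix_two (w : Word) : swap (w ++ [two]) = w ++ [one, one] :=
  swap_append _ _ (by simp) (by simp)

lemma swap_suffix_two_one (w : Word) : swap (w ++ [two, one]) = w ++ [two, one] :=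
  swap_append _ _ (by simp) (by simp)

/-! ### Covers -/

lemma covers_two_cons {y x : Word} (h : Covers y x) : Covers (two :: y) (two :: x) := by
  rcases h with ⟨a, w, h1, h2⟩ | ⟨a, w, h1, h2⟩
  · exact Or.inl ⟨a + 1, w, by rw [h1, List.replicate_succ, List.cons_append],
      by rw [h2, List.replicate_succ, List.cons_append]⟩
  · exact Or.inr ⟨a + 1, w, by rw [h1, List.replicate_succ, List.cons_append],
      by rw [h2, List.replicate_succ, List.cons_append]⟩

lemma covers_one_cons (w : Word) : Covers (one :: w) w := Or.inl ⟨0, w, rfl, rfl⟩

lemma covers_two_one (w : Word) : Covers (two :: w) (one :: w) := Or.inr ⟨0, w, rfl, rfl⟩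

/-- Recursive description of the covering relation. -/
lemma covers_iff (y x : Word) : Covers y x ↔
    (y = one :: x) ∨ (∃ w, y = two :: w ∧ x = one :: w) ∨
      (∃ y' x', y = two :: y' ∧ x = two :: x' ∧ Covers y' x') := by
  constructor
  · rintro (⟨a, w, h1, h2⟩ | ⟨a, w, h1, h2⟩)
    · cases a with
      | zero => left; simp at h1 h2; rw [h1, h2]
      | succ a =>
        right; right
        refine ⟨_, _, by rw [h1, List.replicate_succ, List.cons_append],
          by rw [h2, List.replicate_succ, List.cons_append], Or.inl ⟨a, w, rfl, rfl⟩⟩
    · cases a with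
      | zero => right; left; exact ⟨w, by simpa using h1, by simpa using h2⟩
      | succ a =>
        right; right
        refine ⟨_, _, by rw [h1, List.replicate_succ, List.cons_append],
          by rw [h2, List.replicate_succ, List.cons_append], Or.inr ⟨a, w, rfl, rfl⟩⟩
  · rintro (h | ⟨w, h1, h2⟩ | ⟨y', x', h1, h2, h3⟩)
    · rw [h]; exact covers_one_cons _
    · rw [h1, h2]; exact covers_two_one _
    · rw [h1, h2]; exact covers_two_cons h3

lemma covers_ne_nil {y x : Word} (h : Covers y x) : y ≠ [] := by
  rw [covers_iff] at h
  rcases h with h | ⟨w, h, -⟩ | ⟨y', x', h, -, -⟩ <;> rw [h] <;> simp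

lemma covers_swap {y x : Word} (h : Covers y x) : Covers (swap y) (swap x) := by
  induction y generalizing x with
  | nil => exact absurd rfl (covers_ne_nil h)
  | cons a y ih =>
    rw [covers_iff] at h
    rcases h with h | ⟨w, h1, h2⟩ | ⟨y', x', h1, h2, h3⟩
    · rw [h]
      by_cases hx : x = []
      · subst hx; exact covers_one_cons []
      · by_cases hx' : x = [one]
        · subst hx'; exact covers_two_one []
        · rw [swap_one_cons _ hx hx']; exact covers_one_cons _
    · rw [h1, h2]
      by_cases hw : w = []
      · subst hw; exact covers_one_cons [one]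
      · by_cases hw' : w = [one]
        · subst hw'; exact covers_two_cons (covers_one_cons [])
        · rw [swap_one_cons _ hw hw', swap_two_cons _ hw]; exact covers_two_one _
    · obtain ⟨rfl, rfl⟩ := List.cons.inj h1
      rw [h2]
      by_cases hx : x' = []
      · subst hx
        rw [covers_iff] at h3
        rcases h3 with h3 | ⟨w, _, h4⟩ | ⟨_, _, _, h4, _⟩
        · rw [h3]; exact covers_two_one [one]
        · exact absurd h4 (by simp)
        · exact absurd h4 (by simp)
      · rw [swap_two_cons _ hx, swap_two_cons _ (covers_ne_nil h3)]
        exact covers_two_cons (ih h3)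

lemma covers_swap_iff {y x : Word} : Covers (swap y) (swap x) ↔ Covers y x :=
  ⟨fun h => by simpa only [swap_swap] using covers_swap h, covers_swap⟩

end Pool.Agent.Lib.MP_ac28de_co
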