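import Pool.Agent.Lib.MP_ac28de_co.Auto

namespace Pool.Agent.Lib.MP_ac28de_co

open Letter

/-- The root of the tree. -/
def rootV : Vertex := ⟨[[]], IsPath.root⟩

/-- `Kid d c`: the chain `d` extends the chain `c` by one word. -/
def Kid (d c : Vertex) : Prop := ∃ y : Word, d.1 = y :: c.1

lemma adj_iff (c d : Vertex) : pathTree.Adj c d ↔ Kid c d ∨ Kid d c := Iff.rfl

lemma vertex_cases (c : Vertex) : c = rootV ∨ ∃ c0 : Vertex, Kid c c0 := by
  obtain ⟨c, hc⟩ := c
  cases hc with
  | root => left; rfl
  | @up y x l h1 h2 => right; exact ⟨⟨x :: l, h1⟩, y, rfl⟩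

lemma not_kid_root (c : Vertex) : ¬ Kid rootV c := by
  rintro ⟨y, h⟩
  have := (List.cons.inj h).2
  exact c.2.ne_nil this.symm

lemma kid_unique {d c c' : Vertex} (h : Kid d c) (h' : Kid d c') : c = c' := by
  obtain ⟨y, h⟩ := h
  obtain ⟨y', h'⟩ := h'
  rw [h] at h'
  exact Subtype.ext (List.cons.inj h').2

lemma kid_length {d c : Vertex} (h : Kid d c) : d.1.length = c.1.length + 1 := by
  obtain ⟨y, h⟩ := h; rw [h]; rfl

/-- Every chain has an extension. -/
lemma exists_kid (c : Vertex) : ∃ d, Kid d c := by
  obtain ⟨c, hc⟩ := c
  cases c with
  | nil => exact absurd rfl hc.ne_nil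
  | cons x l => exact ⟨⟨(one :: x) :: x :: l, IsPath.up hc (covers_one_cons x)⟩, one :: x, rfl⟩

lemma root_adj {d e : Vertex} (h1 : pathTree.Adj rootV d) (h2 : pathTree.Adj rootV e) : d = e := by
  have key : ∀ d : Vertex, pathTree.Adj rootV d → d.1 = [[one], []] := by
    intro d h
    rcases h with h | ⟨y, h⟩
    · exact absurd h (not_kid_root d)
    · have hd := d.2
      rw [h] at hd
      have hc : Covers y [] := hd.covers
      rw [← mem_ups] at hc
      simp [ups] at hc
      rw [h, hc]; rfl
  exact Subtype.ext ((key d h1).trans (key e h2).symm)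

lemma not_root_adj {c : Vertex} (h : ∀ d e, pathTree.Adj c d → pathTree.Adj c e → d = e) : c = rootV := by
  rcases vertex_cases c with h' | ⟨c0, h0⟩
  · exact h'
  · exfalso
    obtain ⟨d, hd⟩ := exists_kid c
    have := h c0 d (Or.inl h0) (Or.inr hd)
    subst this
    have h1 := kid_length h0
    have h2 := kid_length hd
    omega

lemma map_root (g : pathTree ≃g pathTree) : g rootV = rootV := by
  apply not_root_adj
  intro d e h1 h2
  have h1' : pathTree.Adj rootV (g.symm d) := by
    rw [← g.map_adj_iff]; simpa using h1
  have h2' : pathTree.Adj rootV (g.symm e) := by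
    rw [← g.map_adj_iff]; simpa using h2
  exact g.symm.injective (root_adj h1' h2')

lemma map_kid (g : pathTree ≃g pathTree) {d c : Vertex} (h : Kid d c) : Kid (g d) (g c) := by
  have main : ∀ (n : ℕ) (c d : Vertex), c.1.length = n → Kid d c → Kid (g d) (g c) := by
    intro n
    induction n using Nat.strong_induction_on with
    | _ n ih =>
      intro c d hn hk
      have hadj : pathTree.Adj (g d) (g c) := by
        rw [g.map_adj_iff]; exact Or.inl hk
      rcases hadj with h1 | h1
      · exact h1
      · exfalso
        rcases vertex_cases c with hc | ⟨c0, h0⟩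
        · subst hc
          rw [map_root] at h1
          exact not_kid_root _ h1
        · have hl := kid_length h0
          have h2 := ih c0.1.length (by omega) c0 c rfl h0
          have h3 := g.injective (kid_unique h1 h2)
          subst h3
          have := kid_length hk
          omega
  exact main _ c d rfl h

lemma map_kid_iff (g : pathTree ≃g pathTree) {d c : Vertex} : Kid (g d) (g c) ↔ Kid d c := by
  constructor
  · intro h
    have := map_kid g.symm h
    simpa using this
  · exact map_kid g

lemma ncard_kids {c : Vertex} {x : Word} {l : List Word} (h : c.1 = x :: l) :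
    {d : Vertex | Kid d c}.ncard = nu x := by
  rw [← ncard_covers]
  have hc := c.2
  rw [h] at hc
  refine Set.ncard_congr (fun d _ => d.1.headI) ?_ ?_ ?_
  · rintro d ⟨y, hy⟩
    have hd := d.2
    rw [hy, h] at hd
    change Covers d.1.headI x
    rw [hy]
    exact hd.covers
  · rintro d e ⟨y, hy⟩ ⟨z, hz⟩ hde
    apply Subtype.ext
    rw [hy, hz] at hde ⊢
    change y = z at hde
    rw [hde]
  · intro y hy
    exact ⟨⟨y :: x :: l, IsPath.up hc hy⟩, ⟨y, by rw [h]⟩, rfl⟩

lemma ncard_kids_map (g : pathTree ≃g pathTree) (c : Vertex) :
    {d : Vertex | Kid d (g c)}.ncard = {d : Vertex | Kid d c}.ncard := by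
  have : {d : Vertex | Kid d (g c)} = g '' {d : Vertex | Kid d c} := by
    ext d
    simp only [Set.mem_ofPred_eq, Set.mem_image]
    constructor
    · intro h
      refine ⟨g.symm d, ?_, by simp⟩
      rw [← map_kid_iff g]; simpa using h
    · rintro ⟨e, he, rfl⟩
      exact map_kid g he
  rw [this, Set.ncard_image_of_injective _ g.injective]

lemma nu_map (g : pathTree ≃g pathTree) {c : Vertex} {x z : Word} {l m : List Word} (h : c.1 = x :: l)
    (h' : (g c).1 = z :: m) : nu z = nu x := by
  rw [← ncard_kids h, ← ncard_kids h', ncard_kids_map]

/-- The first step above a switch `c = (x₀, …, 2⋯21)` whose word is `2⋯22`. -/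
def upper (s : Switch) : Vertex :=
  ⟨List.replicate (s.1.1.headI.length) two :: s.1.1, by
    obtain ⟨⟨c, hc⟩, k, l, h⟩ := s
    change c = _ at h
    subst h
    change IsPath (List.replicate (List.replicate k two ++ [one]).length two :: _)
    rw [List.length_append, List.length_replicate]
    exact IsPath.up hc (covers_replicate k)⟩

/-- The switch pattern of an automorphism. -/
noncomputable def portrait (g : pathTree ≃g pathTree) (s : Switch) : Bool :=
  ((g (upper s)).1.headI != (upper s).1.headI)

theorem rigid (g : pathTree ≃g pathTree) {c : List Word} (hc : IsPath c) :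
    (g ⟨c, hc⟩).1 = act (portrait g) c := by
  induction hc with
  | root =>
    have := map_root g
    change (g rootV).1 = _
    rw [this, act_cons, act_nil]
    cases bit (portrait g) [[]] <;> rfl
  | @up y x l h1 h2 ih =>
    -- the image of the extension
    have hkid : Kid ⟨y :: x :: l, IsPath.up h1 h2⟩ ⟨x :: l, h1⟩ := ⟨y, rfl⟩
    obtain ⟨z, hz⟩ := map_kid g hkid
    have hnu : nu z = nu y := nu_map g (c := ⟨y :: x :: l, IsPath.up h1 h2⟩) rfl hz
    have hpath := (g ⟨y :: x :: l, IsPath.up h1 h2⟩).2
    rw [hz, ih, act_cons] at hpath
    have hcov : Covers z (sw (bit (portrait g) (x :: l)) x) := hpath.covers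
    rw [hz, ih, act_cons _ y]
    congr 1
    by_cases hs : IsSw (x :: l)
    · rw [bit_cons_switch _ h1 hs]
      obtain ⟨k, rfl⟩ := isSw_cons_iff.1 hs
      rw [sw_switchWord] at hcov
      have htie := tie h2 hcov hnu.symm
      by_cases hfix : swap y = y
      · have : z = y := by
          rcases htie with h | ⟨_, h⟩
          · exact h
          · rw [h, hfix]
        rw [this]
        cases portrait g ⟨⟨_, h1⟩, hs⟩ <;> simp [sw, hfix]
      · -- compare with the image of the distinguished extension
        set s : Switch := ⟨⟨_, h1⟩, hs⟩ with hsdef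
        have hup : (upper s).1 = List.replicate (k + 1) two :: (List.replicate k two ++ [one]) :: l := by
          change List.replicate (List.replicate k two ++ [one]).length two :: _ = _
          rw [List.length_append, List.length_replicate]; rfl
        have hkid' : Kid (upper s) ⟨(List.replicate k two ++ [one]) :: l, h1⟩ :=
          ⟨List.replicate (k + 1) two, hup⟩
        obtain ⟨z1, hz1⟩ := map_kid g hkid'
        have hnu1 : nu z1 = nu (List.replicate (k + 1) two) := nu_map g hup hz1
        have hpath1 := (g (upper s)).2
        rw [hz1, ih, act_cons] at hpath1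
        have hcov1 := hpath1.covers
        rw [sw_switchWord] at hcov1
        have htie1 := tie (covers_replicate k) hcov1 hnu1.symm
        have hport : portrait g s = (z1 != List.replicate (k + 1) two) := by
          unfold portrait
          rw [hz1, hup]; rfl
        have hne := swap_replicate_succ_ne k
        rcases moved_cover h2 hfix with hy | hy
        · -- `y` is the distinguished extension
          subst hy
          have hd : (⟨List.replicate (k + 1) two :: (List.replicate k two ++ [one]) :: l,
              IsPath.up h1 h2⟩ : Vertex) = upper s := Subtype.ext hup.symm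
          rw [hd, hz1] at hz
          have hzz : z1 = z := (List.cons.inj hz).1
          subst hzz
          rw [hport]
          rcases htie1 with h | ⟨_, h⟩
          · rw [h]; simp [sw]
          · rw [h]; simp [sw, hne]
        · -- `y` is the other one
          have hzne : z ≠ z1 := by
            intro hzz
            have h3 : g ⟨y :: (List.replicate k two ++ [one]) :: l, IsPath.up h1 h2⟩ = g (upper s) := by
              apply Subtype.ext
              rw [hz, hz1, hzz]
            have h4 := congrArg (fun v : Vertex => v.1) (g.injective h3)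
            have h5 : y = List.replicate (k + 1) two := by
              have h6 : y :: (List.replicate k two ++ [one]) :: l = (upper s).1 := h4
              rw [hup] at h6
              exact (List.cons.inj h6).1
            exact hne (hy.symm.trans h5)
          rw [hport]
          have hyy : swap y = List.replicate (k + 1) two := by rw [hy, swap_swap]
          rcases htie1 with h | ⟨_, h⟩
          · rw [h] at hzne ⊢
            rcases htie with h' | ⟨_, h'⟩
            · rw [h']; simp [sw]
            · exact absurd (h'.trans hyy) hzne
          · rw [h] at hzne ⊢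
            rcases htie with h' | ⟨_, h'⟩
            · exact absurd (h'.trans hy) hzne
            · rw [h']; simp [sw, hne]
    · rw [bit_cons_not_switch _ hs]
      set b := bit (portrait g) (x :: l)
      have hcov' : Covers (sw b z) x := by
        have := covers_sw b hcov
        rwa [sw_self] at this
      have := tie h2 hcov' (by rw [nu_sw, hnu])
      rcases this with h | ⟨h, _⟩
      · rw [← h, sw_self]
      · exact absurd (isSw_cons_iff.2 h) hs

lemma act_determines {ε δ : Switch → Bool} (h : ∀ v : Vertex, act ε v.1 = act δ v.1) : ε = δ := by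
  funext s
  obtain ⟨⟨c, hc⟩, k, l, hk⟩ := s
  change c = _ at hk
  subst hk
  set s : Switch := ⟨⟨(List.replicate k two ++ [one]) :: l, hc⟩, k, l, rfl⟩
  have h1 : act ε (List.replicate (k + 1) two :: (List.replicate k two ++ [one]) :: l) =
      act δ (List.replicate (k + 1) two :: (List.replicate k two ++ [one]) :: l) :=
    h ⟨List.replicate (k + 1) two :: (List.replicate k two ++ [one]) :: l,
      IsPath.up hc (covers_replicate k)⟩
  have hs : IsSw ((List.replicate k two ++ [one]) :: l) := ⟨k, l, rfl⟩
  rw [act_cons ε (List.replicate (k + 1) two), act_cons δ (List.replicate (k + 1) two),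
    bit_cons_switch ε hc hs, bit_cons_switch δ hc hs] at h1
  have h2 := (List.cons.inj h1).1
  have hne := swap_replicate_succ_ne k
  change sw (ε s) _ = sw (δ s) _ at h2
  cases hε : ε s <;> cases hδ : δ s <;> simp only [hε, hδ, sw] at h2
  · rfl
  · exact absurd h2.symm hne
  · exact absurd h2 hne
  · rfl

/-- The automorphisms of the tree correspond to the switch patterns. -/
noncomputable def equiv : (Switch → Bool) ≃ (pathTree ≃g pathTree) where
  toFun := autoOf
  invFun := portrait
  left_inv ε := act_determines fun v => by
    rw [← rigid, autoOf_apply]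
  right_inv g := by
    apply RelIso.ext
    intro v
    apply Subtype.ext
    rw [autoOf_apply]
    exact (rigid g v.2).symm

end Pool.Agent.Lib.MP_ac28de_co
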